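import Pool.Agent.NCub.Stmts

/-!
Squad NC, row CHN: the chain.
-/

set_option autoImplicit false

namespace Pool.Agent.NCub.H51

open Pool.Agent.OM Pool.Agent.NCub

variable {c : Fin 10 → ℝ} {X : Finset (ℝ × ℝ)}

theorem mem_good {p : ℝ × ℝ} : p ∈ good c X ↔ p ∈ X ∧ Om X p ∧ NoLine c (hat p) := by
  classical
  unfold good
  exact Finset.mem_filter

theorem mem_ons {p : ℝ × ℝ} : p ∈ ons c X ↔ p ∈ X ∧ G c (hat p) = 0 := by
  classical
  unfold ons
  exact Finset.mem_filter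

theorem mem_offs {p : ℝ × ℝ} : p ∈ offs c X ↔ p ∈ X ∧ G c (hat p) ≠ 0 := by
  classical
  unfold offs
  exact Finset.mem_filter

theorem good_ons {p : ℝ × ℝ} (h : p ∈ good c X) : p ∈ ons c X :=
  mem_ons.2 ⟨(mem_good.1 h).1, (mem_good.1 h).2.2.1⟩

theorem hat_inj {p q : ℝ × ℝ} {k : ℝ} (h : hat p = k • hat q) : p = q := by
  have h1 := congrArg (fun v : V => v.1) h
  have h2 := congrArg (fun v : V => v.2.1) h
  have h3 := congrArg (fun v : V => v.2.2) h
  simp only [hat, Prod.smul_fst, Prod.smul_snd, smul_eq_mul, mul_one] at h1 h2 h3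
  rw [← h3, one_mul] at h1 h2
  exact Prod.ext h1 h2

theorem hat_ne_zero (p : ℝ × ℝ) : hat p ≠ 0 := by
  intro h
  have := congrArg (fun v : V => v.2.2) h
  simp [hat] at this

theorem ind2 {p q : ℝ × ℝ} (h : p ≠ q) : ∀ x y : ℝ, x • hat p + y • hat q = 0 → x = 0 ∧ y = 0 := by
  intro x y hxy
  have h1 := congrArg (fun v : V => v.1) hxy
  have h2 := congrArg (fun v : V => v.2.1) hxy
  have h3 := congrArg (fun v : V => v.2.2) hxy
  simp only [hat, Prod.smul_fst, Prod.smul_snd, Prod.fst_add, Prod.snd_add, smul_eq_mul,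
    mul_one, Prod.fst_zero, Prod.snd_zero] at h1 h2 h3
  have hy : y = -x := by linarith
  subst hy
  by_contra hc
  have hx : x ≠ 0 := fun h0 => hc ⟨h0, by rw [h0]; ring⟩
  apply h
  apply Prod.ext
  · have : x * (p.1 - q.1) = 0 := by linarith
    rcases mul_eq_zero.1 this with h0 | h0
    · exact absurd h0 hx
    · linarith
  · have : x * (p.2 - q.2) = 0 := by linarith
    rcases mul_eq_zero.1 this with h0 | h0
    · exact absurd h0 hx
    · linarith

theorem det3_add (u u' v w : V) (s t : ℝ) :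
    det3 (s • u + t • u') v w = s * det3 u v w + t * det3 u' v w := by
  simp only [det3, Prod.smul_fst, Prod.smul_snd, Prod.fst_add, Prod.snd_add, smul_eq_mul]
  ring

theorem det3_self (u w : V) : det3 u u w = 0 := by
  simp only [det3]; ring

theorem ind_of_not_col {a b d : ℝ × ℝ} (h : ¬ col a b d) : Ind (hat a) (hat b) (hat d) := by
  have hd : det3 (hat a) (hat b) (hat d) ≠ 0 := fun h0 => h ((col_iff a b d).2 h0)
  intro x y z hxyz
  have h1 := congrArg (fun v : V => v.1) hxyz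
  have h2 := congrArg (fun v : V => v.2.1) hxyz
  have h3 := congrArg (fun v : V => v.2.2) hxyz
  simp only [hat, Prod.smul_fst, Prod.smul_snd, Prod.fst_add, Prod.snd_add, smul_eq_mul,
    mul_one, Prod.fst_zero, Prod.snd_zero] at h1 h2 h3
  have hdet : det3 (hat a) (hat b) (hat d) =
      a.1 * (b.2 - d.2) - a.2 * (b.1 - d.1) + (b.1 * d.2 - b.2 * d.1) := by
    simp only [det3, hat]; ring
  rw [hdet] at hd
  refine ⟨?_, ?_, ?_⟩
  · have : x * (a.1 * (b.2 - d.2) - a.2 * (b.1 - d.1) + (b.1 * d.2 - b.2 * d.1)) = 0 := by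
      linear_combination (b.2 - d.2) * h1 - (b.1 - d.1) * h2 + (b.1 * d.2 - b.2 * d.1) * h3
    exact (mul_eq_zero.1 this).resolve_right hd
  · have : y * (a.1 * (b.2 - d.2) - a.2 * (b.1 - d.1) + (b.1 * d.2 - b.2 * d.1)) = 0 := by
      linear_combination (d.2 - a.2) * h1 - (d.1 - a.1) * h2 + (d.1 * a.2 - d.2 * a.1) * h3
    exact (mul_eq_zero.1 this).resolve_right hd
  · have : z * (a.1 * (b.2 - d.2) - a.2 * (b.1 - d.1) + (b.1 * d.2 - b.2 * d.1)) = 0 := by
      linear_combination (a.2 - b.2) * h1 - (a.1 - b.1) * h2 + (a.1 * b.2 - a.2 * b.1) * h3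
    exact (mul_eq_zero.1 this).resolve_right hd

/-- points of a line -/
theorem col_trans {p q r s : ℝ × ℝ} (hpq : p ≠ q) (h1 : col p q r) (h2 : col p q s) : col p r s := by
  obtain ⟨x, y, hxy, e1, -, -⟩ := col_comb hpq h1
  obtain ⟨x', y', hxy', e2, -, -⟩ := col_comb hpq h2
  rw [col_iff, e1, e2]
  simp only [det3, hat, Prod.smul_fst, Prod.smul_snd, Prod.fst_add, Prod.snd_add, smul_eq_mul]
  ring

theorem third_of {u v p : ℝ × ℝ} (huv : u ≠ v) (h : col u v p) (hpu : p ≠ u) (hpv : p ≠ v)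
    (hG : G c (hat p) = 0) : Third c (hat u) (hat v) (hat p) := by
  obtain ⟨s, t, -, e, h1, h2⟩ := col_comb huv h
  exact ⟨⟨s, t, h1 hpv, h2 hpu, e⟩, hG⟩

/-- another vector of the tangent -/
theorem exists_tan {a : ℝ × ℝ} (ha : G c (hat a) = 0) (hs : Smooth c (hat a)) :
    ∃ w : V, T c (hat a) (hat a) w = 0 ∧ ∀ k : ℝ, w ≠ k • hat a := by
  obtain ⟨v, hv⟩ := hs
  set L : V := (T c (hat a) (hat a) (1, 0, 0), T c (hat a) (hat a) (0, 1, 0),
    T c (hat a) (hat a) (0, 0, 1)) with hL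
  have hlin : ∀ w : V, T c (hat a) (hat a) w = L.1 * w.1 + L.2.1 * w.2.1 + L.2.2 * w.2.2 := by
    intro w
    rw [hL]
    simp only [T]
    ring
  have hLa : L.1 * a.1 + L.2.1 * a.2 + L.2.2 = 0 := by
    have := hlin (hat a)
    have hG : T c (hat a) (hat a) (hat a) = 0 := ha
    rw [hG] at this
    simp only [hat, mul_one] at this
    linarith
  refine ⟨(L.2.1 - L.2.2 * a.2, L.2.2 * a.1 - L.1, L.1 * a.2 - L.2.1 * a.1), ?_, ?_⟩
  · rw [hlin]
    simp only
    ring
  · intro k hk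
    have h1 := congrArg (fun v : V => v.1) hk
    have h2 := congrArg (fun v : V => v.2.1) hk
    have h3 := congrArg (fun v : V => v.2.2) hk
    simp only [hat, Prod.smul_fst, Prod.smul_snd, smul_eq_mul, mul_one] at h1 h2 h3
    have hk0 : k * (a.1 ^ 2 + a.2 ^ 2 + 1) = 0 := by
      linear_combination (-a.1) * h1 - a.2 * h2 - h3
    have hk1 : k = 0 := by
      rcases mul_eq_zero.1 hk0 with h0 | h0
      · exact h0
      · nlinarith [sq_nonneg a.1, sq_nonneg a.2]
    rw [hk1] at h1 h2 h3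
    have hL3 : L.2.2 * (a.1 ^ 2 + a.2 ^ 2 + 1) = 0 := by
      linear_combination hLa - a.2 * h1 + a.1 * h2
    have hL3' : L.2.2 = 0 := by
      rcases mul_eq_zero.1 hL3 with h0 | h0
      · exact h0
      · nlinarith [sq_nonneg a.1, sq_nonneg a.2]
    have hL2 : L.2.1 = 0 := by rw [hL3'] at h1; linarith
    have hL1 : L.1 = 0 := by rw [hL3'] at h2; linarith
    apply hv
    rw [hlin, hL1, hL2, hL3']
    ring

theorem resid_on {a w : V} (ha : G c a = 0) (hw : T c a a w = 0) : G c (resid c a w) = 0 := by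
  unfold resid
  rw [G_line, ha, hw]
  ring

theorem resid_ne {a w : V} (ha : NoLine c a) (ha0 : a ≠ 0) (hw : T c a a w = 0)
    (hwa : ∀ k : ℝ, w ≠ k • a) : resid c a w ≠ 0 := by
  intro h
  unfold resid at h
  by_cases hT : T c a w w = 0
  · rw [hT] at h
    have h1 : G c w • a = 0 := by simpa using h
    have hG : G c w = 0 := (smul_eq_zero.1 h1).resolve_right ha0
    obtain ⟨k, hk⟩ := ha.2 w hw hT hG
    exact hwa k hk
  · have h3 : -(3 * T c a w w) ≠ 0 := by
      intro h0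
      apply hT
      linarith
    apply hwa (-(G c w) / (-(3 * T c a w w)))
    have h2 : (-(3 * T c a w w)) • w = (-(G c w)) • a := by
      rw [neg_smul (G c w) a]
      exact eq_neg_of_add_eq_zero_right h
    have h4 : w = (-(3 * T c a w w))⁻¹ • ((-(3 * T c a w w)) • w) := by
      rw [smul_smul, inv_mul_cancel₀ h3, one_smul]
    have h5 : w = ((-(3 * T c a w w))⁻¹ * -(G c w)) • a := by
      rw [h2, smul_smul] at h4
      exact h4
    rw [div_eq_inv_mul]
    exact h5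

theorem card_le_of_rel {S U : Finset (ℝ × ℝ)} (R : ℝ × ℝ → ℝ × ℝ → Prop)
    (h1 : ∀ d ∈ S, ∃ u ∈ U, R d u) (h2 : ∀ d ∈ S, ∀ d' ∈ S, ∀ u, R d u → R d' u → d = d') :
    S.card ≤ U.card := by
  classical
  choose! g hg using h1
  refine Finset.card_le_card_of_injOn g (fun d hd => (hg d hd).1) ?_
  intro d hd d' hd' h
  refine h2 d hd d' hd' (g d) (hg d hd).2 ?_
  have h3 : g d = g d' := h
  rw [h3]
  exact (hg d' hd').2

open Classical in
/-- at most three points of the curve on a line -/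
theorem three_line (kit : KITStmt) (X : Finset (ℝ × ℝ)) {a p q r : ℝ × ℝ} (hna : NoLine c (hat a))
    (h1 : a ≠ p) (h2 : a ≠ q) (h3 : a ≠ r) (h4 : p ≠ q) (h5 : p ≠ r)
    (gp : G c (hat p) = 0) (gq : G c (hat q) = 0) (gr : G c (hat r) = 0)
    (c1 : col a p q) (c2 : col a p r) : q = r := by
  by_contra h6
  have h7 := (kit c X).2.1 (hat a) (hat p) (ind2 h1) {a, p, q, r} ?_ ⟨a, by simp, hna⟩
  · rw [Finset.card_insert_of_notMem, Finset.card_insert_of_notMem,
      Finset.card_insert_of_notMem, Finset.card_singleton] at h7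
    · omega
    · simpa using h6
    · simp only [Finset.mem_insert, Finset.mem_singleton, not_or]
      exact ⟨h4, h5⟩
    · simp only [Finset.mem_insert, Finset.mem_singleton, not_or]
      exact ⟨h1, h2, h3⟩
  · intro x hx
    simp only [Finset.mem_insert, Finset.mem_singleton] at hx
    have hrot : ∀ y, col a p y → det3 (hat y) (hat a) (hat p) = 0 := by
      intro y hy
      exact (col_iff y a p).1 (col_rot (col_rot hy))
    rcases hx with rfl | rfl | rfl | rfl
    · exact ⟨hna.1, det3_self _ _⟩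
    · exact ⟨gp, hrot _ (by unfold col; ring)⟩
    · exact ⟨gq, hrot _ c1⟩
    · exact ⟨gr, hrot _ c2⟩

open Classical in
/-- CHN. -/
theorem chn (kit : KITStmt) (clo : CLOStmt) (tan : TANStmt) : CHNStmt := by
  intro c X hcard a ha hsm hfl htan
  obtain ⟨k1, k2, k3, k4, -⟩ := kit c X
  have hna : NoLine c (hat a) := (mem_good.1 ha).2.2
  -- the point b
  have hb : ∃ b ∈ good c X, b ≠ a ∧ Free c X a b := by
    by_contra hc
    push Not at hc
    have h1 := k4 a hna.1 ((good c X).erase a) (fun x hx => by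
      rw [Finset.mem_erase] at hx
      have hx' := (mem_good.1 hx.2).2.2
      exact ⟨hx'.1, hx.1, Or.inl hx', hc x hx.2 hx.1⟩)
    have h2 := Finset.card_erase_of_mem ha
    omega
  obtain ⟨b, hb, hba, hfab⟩ := hb
  have hnb : NoLine c (hat b) := (mem_good.1 hb).2.2
  obtain ⟨p₁, hp₁, hp₁a, hp₁b, hcol1⟩ := k1 a ha b (good_ons hb) hba hfab
  have g₁ : G c (hat p₁) = 0 := (mem_ons.1 hp₁).2
  obtain ⟨w, hw, hwa⟩ := exists_tan hna.1 hsm
  set q : V := resid c (hat a) w with hq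
  have hq0 : q ≠ 0 := resid_ne hna (hat_ne_zero a) hw hwa
  have hqG : G c q = 0 := resid_on hna.1 hw
  -- relations
  let R2 : ℝ × ℝ → ℝ × ℝ → Prop := fun d p₂ =>
    p₂ ∈ ons c X ∧ p₂ ≠ p₁ ∧ p₂ ≠ d ∧ col p₁ d p₂
  let R3 : ℝ × ℝ → ℝ × ℝ → Prop := fun d p₃ =>
    ∃ p₂, R2 d p₂ ∧ p₂ ≠ a ∧ p₃ ∈ ons c X ∧ p₃ ≠ p₂ ∧ p₃ ≠ a ∧ col p₂ a p₃
  let E0 := (good c X).filter fun d => col a b d
  let E1 := (good c X).filter fun d => d ≠ p₁ ∧ ¬ Free c X p₁ d
  let E2 := (good c X).filter fun d => d ≠ p₁ ∧ ∃ p₂, R2 d p₂ ∧ p₂ ≠ a ∧ ¬ Free c X a p₂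
  let E3 := (good c X).filter fun d => d ≠ p₁ ∧ ∃ p₃, R3 d p₃ ∧ p₃ ≠ b ∧ ¬ Free c X b p₃
  let E4 := (good c X).filter fun d => T c (hat d) (hat d) q = 0
  let E5 := (offs c X).biUnion fun z => (good c X).filter fun d => det3 (hat z) (hat d) q = 0
  have inj2 : ∀ d d' p₂, d ∈ good c X → d' ∈ good c X → d ≠ p₁ → d' ≠ p₁ →
      R2 d p₂ → R2 d' p₂ → d = d' := by
    intro d d' p₂ hd hd' h1 h1' h2 h2'
    by_contra hne
    -- line d p₁ p₂ d'
    have hnd : NoLine c (hat d) := (mem_good.1 hd).2.2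
    have c1 : col p₁ p₂ d := by
      have := h2.2.2.2
      unfold col at *; linear_combination -this
    have c2 : col p₁ p₂ d' := by
      have := h2'.2.2.2
      unfold col at *; linear_combination -this
    have c3 : col d p₁ p₂ := by
      unfold col at *; linear_combination c1
    have c4 : col p₁ d d' := col_trans (Ne.symm h2.2.1) c1 c2
    have c5 : col d p₁ d' := col_swap c4
    exact h2'.2.2.1 (three_line kit X hnd h1 (Ne.symm h2.2.2.1) hne (Ne.symm h2.2.1)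
      (Ne.symm h1') g₁ (mem_ons.1 h2.1).2 (mem_good.1 hd').2.2.1 c3 c5)
  have b0 : E0.card ≤ 3 := by
    refine k2 (hat a) (hat b) (ind2 hba.symm) E0 ?_ ⟨a, ?_, hna⟩
    · intro x hx
      rw [Finset.mem_filter] at hx
      exact ⟨(mem_good.1 hx.1).2.2.1, (col_iff x a b).1 (col_rot (col_rot hx.2))⟩
    · rw [Finset.mem_filter]
      exact ⟨ha, by unfold col; ring⟩
  have b1 : E1.card ≤ 2 * (offs c X).card := by
    refine k4 p₁ g₁ E1 ?_
    intro x hx
    rw [Finset.mem_filter] at hx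
    have hx' := (mem_good.1 hx.1).2.2
    exact ⟨hx'.1, hx.2.1, Or.inl hx', hx.2.2⟩
  have b2 : E2.card ≤ 2 * (offs c X).card := by
    refine le_trans (card_le_of_rel (U := (ons c X).filter fun p => p ≠ a ∧ ¬ Free c X a p) R2
      ?_ ?_) (k4 a hna.1 _ ?_)
    · intro d hd
      rw [Finset.mem_filter] at hd
      obtain ⟨-, -, p₂, h1, h2, h3⟩ := hd
      exact ⟨p₂, Finset.mem_filter.2 ⟨h1.1, h2, h3⟩, h1⟩
    · intro d hd d' hd' u h1 h2
      rw [Finset.mem_filter] at hd hd'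
      exact inj2 d d' u hd.1 hd'.1 hd.2.1 hd'.2.1 h1 h2
    · intro x hx
      rw [Finset.mem_filter] at hx
      exact ⟨(mem_ons.1 hx.1).2, hx.2.1, Or.inr hna, hx.2.2⟩
  have b3 : E3.card ≤ 2 * (offs c X).card := by
    refine le_trans (card_le_of_rel (U := (ons c X).filter fun p => p ≠ b ∧ ¬ Free c X b p) R3
      ?_ ?_) (k4 b hnb.1 _ ?_)
    · intro d hd
      rw [Finset.mem_filter] at hd
      obtain ⟨-, -, p₃, h1, h2, h3⟩ := hd
      exact ⟨p₃, Finset.mem_filter.2 ⟨h1.choose_spec.2.2.1, h2, h3⟩, h1⟩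
    · intro d hd d' hd' u h1 h2
      rw [Finset.mem_filter] at hd hd'
      obtain ⟨p₂, r1, r2, r3, r4, r5, r6⟩ := h1
      obtain ⟨p₂', s1, s2, s3, s4, s5, s6⟩ := h2
      -- line a u p₂ p₂'
      have e1 : col a u p₂ := by unfold col at *; linear_combination r6
      have e2 : col a u p₂' := by unfold col at *; linear_combination s6
      have e3 : p₂ = p₂' := three_line kit X hna (Ne.symm r5) (Ne.symm r2) (Ne.symm s2)
        r4 s4 (mem_ons.1 r3).2 (mem_ons.1 r1.1).2 (mem_ons.1 s1.1).2 e1 e2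
      rw [← e3] at s1
      exact inj2 d d' p₂ hd.1 hd'.1 hd.2.1 hd'.2.1 r1 s1
    · intro x hx
      rw [Finset.mem_filter] at hx
      exact ⟨(mem_ons.1 hx.1).2, hx.2.1, Or.inr hnb, hx.2.2⟩
  have b4 : E4.card ≤ 8 := by
    refine tan c q hq0 E4 ?_
    intro x hx
    rw [Finset.mem_filter] at hx
    exact ⟨(mem_good.1 hx.1).2.2, hx.2⟩
  have b5 : E5.card ≤ 3 * (offs c X).card := by
    refine le_trans Finset.card_biUnion_le ?_
    rw [mul_comm, ← smul_eq_mul]
    refine Finset.sum_le_card_nsmul _ _ _ ?_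
    intro z hz
    rcases Finset.eq_empty_or_nonempty
      ((good c X).filter fun d => det3 (hat z) (hat d) q = 0) with h0 | ⟨d₀, hd₀⟩
    · rw [h0]; simp
    · refine k2 (hat z) q ?_ _ ?_ ⟨d₀, hd₀, ?_⟩
      · intro x y hxy
        have hx : x = 0 := by
          by_contra hx
          have e1 : hat z = (-(y / x)) • q := by
            have e2 : x • hat z = (-y) • q := by
              rw [neg_smul]
              exact eq_neg_of_add_eq_zero_left hxy
            have e3 : hat z = x⁻¹ • (x • hat z) := by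
              rw [smul_smul, inv_mul_cancel₀ hx, one_smul]
            rw [e3, e2, smul_smul]
            congr 1
            field_simp
          apply (mem_offs.1 hz).2
          rw [e1]
          have := G_line c (-(y / x)) 0 q q
          rw [zero_smul, add_zero] at this
          rw [this, hqG]
          ring
        refine ⟨hx, ?_⟩
        rw [hx, zero_smul, zero_add] at hxy
        exact (smul_eq_zero.1 hxy).resolve_right hq0
      · intro x hx
        rw [Finset.mem_filter] at hx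
        refine ⟨(mem_good.1 hx.1).2.2.1, ?_⟩
        have := hx.2
        unfold det3 at *
        linear_combination -this
      · rw [Finset.mem_filter] at hd₀
        exact (mem_good.1 hd₀.1).2.2
  -- the point d
  have hd : ∃ d ∈ good c X, d ∉ E0 ∧ d ∉ E1 ∧ d ∉ E2 ∧ d ∉ E3 ∧ d ∉ E4 ∧ d ∉ E5 := by
    by_contra hc
    push Not at hc
    have hsub : good c X ⊆ E0 ∪ (E1 ∪ (E2 ∪ (E3 ∪ (E4 ∪ E5)))) := by
      intro d hd
      by_contra hn
      simp only [Finset.mem_union, not_or] at hn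
      exact hn.2.2.2.2.2 (hc d hd hn.1 hn.2.1 hn.2.2.1 hn.2.2.2.1 hn.2.2.2.2.1)
    have h1 := Finset.card_le_card hsub
    have h2 := Finset.card_union_le E0 (E1 ∪ (E2 ∪ (E3 ∪ (E4 ∪ E5))))
    have h3 := Finset.card_union_le E1 (E2 ∪ (E3 ∪ (E4 ∪ E5)))
    have h4 := Finset.card_union_le E2 (E3 ∪ (E4 ∪ E5))
    have h5 := Finset.card_union_le E3 (E4 ∪ E5)
    have h6 := Finset.card_union_le E4 E5
    omega
  obtain ⟨d, hd, n0, n1, n2, n3, n4, n5⟩ := hd
  have hnd : NoLine c (hat d) := (mem_good.1 hd).2.2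
  have hcabd : ¬ col a b d := fun h => n0 (Finset.mem_filter.2 ⟨hd, h⟩)
  have hdp₁ : d ≠ p₁ := by
    rintro rfl
    exact hcabd hcol1
  have hda : d ≠ a := by
    rintro rfl
    exact hcabd (by unfold col; ring)
  have hdb : d ≠ b := by
    rintro rfl
    exact hcabd (by unfold col; ring)
  have f1 : Free c X p₁ d := by
    by_contra h
    exact n1 (Finset.mem_filter.2 ⟨hd, hdp₁, h⟩)
  obtain ⟨p₂, hp₂, hp₂d, hp₂p₁, hcol2⟩ := k1 d hd p₁ hp₁ (Ne.symm hdp₁) f1.symm
  have r2 : R2 d p₂ := ⟨hp₂, hp₂p₁, hp₂d, col_swap hcol2⟩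
  -- a point of the line a b is not p₂
  have hline : ∀ u, col a b u → u ≠ p₁ → ¬ col p₁ d u := by
    intro u hu hup hcd
    apply hcabd
    -- p₁, u on a b, d on the line p₁ u
    have e1 : col p₁ u d := by unfold col at *; linear_combination -hcd
    have e2 : ∃ s t : ℝ, hat d = s • hat p₁ + t • hat u := by
      obtain ⟨s, t, -, e, -, -⟩ := col_comb (Ne.symm hup) e1
      exact ⟨s, t, e⟩
    obtain ⟨s, t, e⟩ := e2
    apply (col_iff a b d).2
    have e3 := (col_iff a b p₁).1 hcol1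
    have e4 := (col_iff a b u).1 hu
    have e5 : det3 (hat a) (hat b) (hat d) =
        s * det3 (hat a) (hat b) (hat p₁) + t * det3 (hat a) (hat b) (hat u) := by
      rw [e]
      simp only [det3, Prod.smul_fst, Prod.smul_snd, Prod.fst_add, Prod.snd_add, smul_eq_mul]
      ring
    rw [e5, e3, e4]
    ring
  have hp₂a : p₂ ≠ a := by
    rintro rfl
    exact hline p₂ (by unfold col; ring) hp₂p₁ (col_swap hcol2)
  have f2 : Free c X a p₂ := by
    by_contra h
    exact n2 (Finset.mem_filter.2 ⟨hd, hdp₁, p₂, r2, hp₂a, h⟩)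
  obtain ⟨p₃, hp₃, hp₃a, hp₃p₂, hcol3⟩ := k1 a ha p₂ hp₂ hp₂a f2
  have r3 : R3 d p₃ := ⟨p₂, r2, hp₂a, hp₃, hp₃p₂, hp₃a, col_swap hcol3⟩
  have hp₃b : p₃ ≠ b := by
    intro h
    rw [h] at hcol3
    have e1 : col a b p₂ := by unfold col at *; linear_combination -hcol3
    exact hline p₂ e1 hp₂p₁ (col_swap hcol2)
  have f3 : Free c X b p₃ := by
    by_contra h
    exact n3 (Finset.mem_filter.2 ⟨hd, hdp₁, p₃, r3, hp₃b, h⟩)
  obtain ⟨p₄, hp₄, hp₄b, hp₄p₃, hcol4⟩ := k1 b hb p₃ hp₃ hp₃b f3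
  have hchain : Chain c (hat a) (hat b) (hat d) (hat p₁) (hat p₂) (hat p₃) (hat p₄) :=
    { ind := ind_of_not_col hcabd
      na := hna
      nb := hnb
      nd := hnd
      e₁ := third_of hba.symm hcol1 hp₁a hp₁b g₁
      e₂ := third_of hdp₁.symm (col_swap hcol2) hp₂p₁ hp₂d (mem_ons.1 hp₂).2
      e₃ := third_of hp₂a (col_swap hcol3) hp₃p₂ hp₃a (mem_ons.1 hp₃).2
      e₄ := third_of hp₃b (col_swap hcol4) hp₄p₃ hp₄b (mem_ons.1 hp₄).2 }
  obtain ⟨h1, h2⟩ := clo c _ _ _ _ _ _ _ hchain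
  obtain ⟨h2a, h2b⟩ := h2 w hw hwa
  have hp₄d : p₄ ≠ d := by
    intro h
    apply n4
    rw [Finset.mem_filter]
    refine ⟨hd, h2b 1 ?_⟩
    rw [h, one_smul]
  have f4 : Free c X d p₄ := by
    intro z hz hcz
    apply n5
    rw [Finset.mem_biUnion]
    refine ⟨z, hz, ?_⟩
    rw [Finset.mem_filter]
    refine ⟨hd, ?_⟩
    obtain ⟨s, t, -, e, -, -⟩ := col_comb (Ne.symm hp₄d) hcz
    rw [e, det3_add, det3_self, h2a]
    ring
  obtain ⟨p₅, hp₅, hp₅d, hp₅p₄, hcol5⟩ := k1 d hd p₄ hp₄ hp₄d f4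
  obtain ⟨h3, h4⟩ := h1 (hat p₅) (fun k hk => hp₄d (hat_inj hk))
    (third_of hp₄d (col_swap hcol5) hp₅p₄ hp₅d (mem_ons.1 hp₅).2)
  have hp₅a : p₅ ≠ a := by
    intro h
    apply hfl
    refine h4 1 ?_
    rw [h, one_smul]
  have f5 : Free c X a p₅ := by
    intro z hz hcz
    apply htan z hz
    obtain ⟨s, t, -, e, -, -⟩ := col_comb (Ne.symm hp₅a) hcz
    rw [e, T_add_right, T_smul_right, T_smul_right, h3]
    have : T c (hat a) (hat a) (hat a) = 0 := hna.1
    rw [this]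
    ring
  obtain ⟨w', hw', hw'a, hw'p, hcol6⟩ := k1 a ha p₅ hp₅ hp₅a f5
  exact k3 a p₅ w' hna (mem_ons.1 hp₅).2 (mem_ons.1 hw').2 hp₅a hw'a hw'p h3 hcol6

end Pool.Agent.NCub.H51
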