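import Pool.Agent.Helper10_NC.POL
import Pool.Agent.Helper27_NC.FLX
import Pool.Agent.Helper39_NC.CLO
import Pool.Agent.Helper56_NC.LIN
import Pool.Agent.Helper60_NC.TAN
import Pool.Agent.Helper69_NC.KIT
import Pool.Agent.Helper81_NC.GDA
import Pool.Agent.Helper81_NC.FIN
import Pool.Agent.Helper51_NC.CHN

/-!
Squad NC: the theorem.
-/

set_option autoImplicit false

namespace Pool.Agent.NCub.H51

open Pool.Agent.OM Pool.Agent.NCub

theorem main : FINStmt :=
  H81.fin (H81.gda H69.kit H60.tan H27.flx) (chn H69.kit H39.clo H60.tan) H56.lin H10.pol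

end Pool.Agent.NCub.H51
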